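import Pool.Agent.Helper49.SE.Stm2
import Pool.Graph.R_pool_sql_team_seeded_47a924f7.T6.H74.GC.Shrink

/-!
# Resolution by a graph closure, relative version
-/

set_option autoImplicit false

open HomogeneousLocalization AlgebraicGeometry CategoryTheory Limits Pool.Agent.T6.H74.GC

universe u

namespace Pool.Agent.Helper2.SE

section

attribute [local instance] MvPolynomial.gradedAlgebra

variable {k K : Type u} [Field k] [Field K] [Algebra k K] {ι : Type} [Finite ι] (z : ι → K)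
  {X : Scheme.{u}} (f : X ⟶ Spec (CommRingCat.of k)) (b : Spec (CommRingCat.of K) ⟶ X)
  (hb : b ≫ f = Spec.map (CommRingCat.ofHom (algebraMap k K)))

variable [QuasiCompact f] [IsSeparated f]

/-- Every point of the graph closure over a chart is contained in one of the charts; the condition
on valuation rings is needed only over the coordinate ring of the chart. -/
theorem exists_chartz (hz : ∀ i, z i ≠ 0) {s : ι} (hs : z s ≠ 0) (T : Set ι)
    {B : Type u} [CommRing B] (β : B →+* K)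
    (hV : ∀ V : ValuationSubring K, (∀ y, β y ∈ V) → ∃ t ∈ T, ∀ i, z i / z t ∈ V)
    (a : Spec (CommRingCat.of B) ⟶ X) [IsOpenImmersion a]
    (hβ : Spec.map (CommRingCat.ofHom β) ≫ a = b) (y : Yz z f b hb hs)
    (hy : piz z f b hb hs y ∈ Set.range a) :
    ∃ t ∈ T, pullback.fst (Proj.toSpecZero (Fo k ι)) (gX ι f)
          ((gz z f b hb hs).imageι y) ∈
          Proj.basicOpen (Fo k ι) (MvPolynomial.X t) := by
  have h1 : pullback.fst (Proj.toSpecZero (Fo k ι)) (gX ι f)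
      ((gz z f b hb hs).imageι y) ∈ (⊤ : (Proj (Fo k ι)).Opens) := trivial
  rw [← iSup_X, TopologicalSpace.Opens.mem_iSup] at h1
  obtain ⟨r, hr⟩ := h1
  obtain ⟨c, hc1, hc2, hc3, hc4⟩ := chartz z f b hb hs (hz r) β a hβ
  obtain ⟨q, rfl⟩ := hc4 y hr hy
  obtain ⟨V, hV1, hV2⟩ := Ideal.image_subset_nonunits_valuationSubring
    (A := Cz (k := k) z (hz r) β) q.asIdeal q.isPrime.ne_top
  have hCz := Cz_eq (k := k) z (hz r) β
  have hk : ∀ x : B, β x ∈ V := by
    intro x
    apply hV1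
    rw [hCz]
    exact (le_sup_right : β.range ≤ _) ⟨x, rfl⟩
  obtain ⟨t, htT, ht⟩ := hV V hk
  refine ⟨t, htT, ?_⟩
  have hmem : z t / z r ∈ Cz (k := k) z (hz r) β := by
    rw [hCz]
    exact (le_sup_left : (Algebra.adjoin k (Set.range fun i => z i / z r)).toSubring ≤ _)
      (Algebra.subset_adjoin ⟨t, rfl⟩)
  refine hc3 q t ⟨_, hmem⟩ rfl ?_
  intro hq
  have h2 : z t / z r ∈ V.nonunits := hV2 ⟨⟨_, hmem⟩, hq, rfl⟩
  rw [ValuationSubring.mem_nonunits_iff_or] at h2
  rcases h2 with h2 | h2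
  · exact div_ne_zero (hz t) (hz r) h2
  · apply h2
    rw [inv_div]
    exact ht r

/-- The graph closure is smooth. -/
theorem smooth_graph (hz : ∀ i, z i ≠ 0) {s : ι} (hs : z s ≠ 0) (T : Set ι)
    (hX : ∀ x : X, ∃ (B : Type u) (_ : CommRing B) (β : B →+* K)
      (a : Spec (CommRingCat.of B) ⟶ X), IsOpenImmersion a ∧
      Spec.map (CommRingCat.ofHom β) ≫ a = b ∧ x ∈ Set.range a ∧
      (∀ V : ValuationSubring K, (∀ y, β y ∈ V) → ∃ t ∈ T, ∀ i, z i / z t ∈ V) ∧
      ∀ t ∈ T, ∃ C : Subalgebra k K, Algebra.Smooth k C ∧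
        C.toSubring = (Algebra.adjoin k (Set.range fun i => z i / z t)).toSubring ⊔ β.range) :
    Smooth (piz z f b hb hs ≫ f) := by
  apply smooth_of_charts
  intro y
  obtain ⟨B, _, β, a, ha, hβ, hxa, hV, hC⟩ := hX (piz z f b hb hs y)
  obtain ⟨t, htT, ht⟩ := exists_chartz z f b hb hz hs T β hV a hβ y hxa
  obtain ⟨C, hC1, hC2⟩ := hC t htT
  obtain ⟨c, hc1, hc2, -, hc4⟩ := chartz z f b hb hs (hz t) β a hβ
  refine ⟨_, c, hc1, hc4 y ht hxa, ?_⟩
  rw [← Category.assoc, hc2, Category.assoc]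
  exact smooth_chart z f b hb (hz t) β a hβ C hC1 (by rw [hC2, Cz_eq])

end

/-- Package RES. -/
theorem res : Pool.Agent.Helper49.SE.ResStm := by
  intro k K _ _ _ ι _ z X f b hb _ _ _ hz T hT hX
  obtain ⟨s, -⟩ := hT
  have hs := hz s
  obtain ⟨x⟩ : Nonempty X := inferInstance
  obtain ⟨B, _, β, a, ha, -, -, -⟩ := hX x
  obtain ⟨B', _, β', a', ha', hw⟩ := ha.shrink (fun i => z i / z s)
  have := ha'.oi
  refine ⟨Yz z f b hb hs, piz z f b hb hs, inferInstance, inferInstance, ?_, a'.opensRange, ?_,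
    birational_graph z f b hb hz hs β' a' ha'.fac ha'.inj hw⟩
  · refine smooth_graph z f b hb hz hs T fun x => ?_
    obtain ⟨B, _, β, a, ha, hxa, hV, hC⟩ := hX x
    exact ⟨B, inferInstance, β, a, ha.oi, ha.fac, hxa, hV, hC⟩
  · refine a'.opensRange.isOpen.dense ⟨a' (Spec.map (CommRingCat.ofHom β') default), ?_⟩
    exact ⟨_, rfl⟩

end Pool.Agent.Helper2.SE

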